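import Pool.Agent.H751.AB.Stm2

/-!
TOP: from the subgroup acting trivially on the abelianization to the whole group.
-/

set_option autoImplicit false

namespace Pool.Agent.H264.AB

open Pool.Agent.H751.AB NC

/-- the automorphisms which act trivially modulo `K` -/
def U {n : ℕ} (K : Subgroup (FreeGroup (Fin n))) : Subgroup (MulAut (FreeGroup (Fin n))) where
  carrier := {α | ∀ x, α x * x⁻¹ ∈ K}
  one_mem' := fun x => by
    rw [MulAut.one_apply, mul_inv_cancel]; exact one_mem _
  mul_mem' := by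
    intro α β h h' x
    have := mul_mem (h (β x)) (h' x)
    rwa [mul_assoc, inv_mul_cancel_left] at this
  inv_mem' := by
    intro α h x
    have := inv_mem (h (α⁻¹ x))
    rw [MulAut.apply_inv_self, mul_inv_rev, inv_inv] at this
    exact this

theorem mem_U {n : ℕ} {K : Subgroup (FreeGroup (Fin n))} {α : MulAut (FreeGroup (Fin n))} :
    α ∈ U K ↔ ∀ x, α x * x⁻¹ ∈ K := Iff.rfl

theorem U_index {n : ℕ} (K : Subgroup (FreeGroup (Fin n))) [K.Normal] [K.FiniteIndex] :
    (U K).FiniteIndex := by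
  let π := QuotientGroup.mk' K
  let F : MulAut (FreeGroup (Fin n)) ⧸ U K → (Fin n → FreeGroup (Fin n) ⧸ K) :=
    fun q => fun i => π ((q.out)⁻¹ (FreeGroup.of i))
  have hF : Function.Injective F := by
    intro q q' h
    have h1 : π.comp ((q.out)⁻¹ : MulAut (FreeGroup (Fin n))).toMonoidHom
        = π.comp ((q'.out)⁻¹ : MulAut (FreeGroup (Fin n))).toMonoidHom := by
      apply FreeGroup.ext_hom
      intro i
      exact congrFun h i
    have h2 : (q.out)⁻¹ * q'.out ∈ U K := by
      intro x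
      have h3 := DFunLike.congr_fun h1 (q'.out x)
      change π ((q.out)⁻¹ (q'.out x)) = π ((q'.out)⁻¹ (q'.out x)) at h3
      rw [MulAut.inv_apply_self] at h3
      have h4 := QuotientGroup.eq_iff_div_mem.1 h3
      rw [div_eq_mul_inv] at h4
      exact h4
    rw [← QuotientGroup.eq, QuotientGroup.out_eq', QuotientGroup.out_eq'] at h2
    exact h2
  have hfinK : Finite (FreeGroup (Fin n) ⧸ K) := Subgroup.finite_quotient_of_finiteIndex
  have hfin : Finite (MulAut (FreeGroup (Fin n)) ⧸ U K) := Finite.of_injective F hF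
  exact Subgroup.finiteIndex_of_finite_quotient

theorem T_TOP : S_TOP := by
  intro n A h1 h2 B hInn hB
  -- the Torelli part
  have hB' : B.relIndex (A ⊓ IA (Fin n)) ≠ 0 :=
    fun h => hB (Subgroup.relIndex_eq_zero_of_le_right inf_le_left h)
  obtain ⟨K1, hc1, hf1, hK1⟩ := h1 B hInn hB'
  have : (U K1).FiniteIndex := U_index K1
  have hU : (U K1).relIndex A ≠ 0 := Subgroup.FiniteIndex.index_ne_zero (H := (U K1).subgroupOf A)
  -- the group `D`
  have hD0 : (B ⊓ U K1 ⊓ A).relIndex A ≠ 0 := by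
    rw [Subgroup.inf_relIndex_right]
    exact Subgroup.relIndex_inf_ne_zero hB hU
  have hD : ((B ⊓ U K1 ⊓ A) ⊔ IA (Fin n)).relIndex A ≠ 0 :=
    ne_zero_of_dvd_ne_zero hD0 (Subgroup.relIndex_dvd_of_le_left A le_sup_left)
  obtain ⟨K2, hc2, hf2, hK2⟩ := h2 _ le_sup_right hD
  refine ⟨K1 ⊓ K2, inferInstance, inferInstance, ?_⟩
  intro α hα hx
  have hx1 : α ∈ U K1 := fun x => (hx x).1
  obtain ⟨y, hy, z, hz, rfl⟩ := Subgroup.mem_sup_of_normal_right.1 (hK2 α hα fun x => (hx x).2)
  have hyB : y ∈ B := hy.1.1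
  have hyU : y ∈ U K1 := hy.1.2
  have hyA : y ∈ A := hy.2
  have hzA : z ∈ A := by
    have := A.mul_mem (A.inv_mem hyA) hα
    rwa [inv_mul_cancel_left] at this
  have hzU : z ∈ U K1 := by
    have := (U K1).mul_mem ((U K1).inv_mem hyU) hx1
    rwa [inv_mul_cancel_left] at this
  exact B.mul_mem hyB (hK1 z ⟨hzA, hz⟩ hzU)

end Pool.Agent.H264.AB
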